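import Pool.Agent.R951.LH.Swap

/-!
# A semigroup algebra of a logically homogeneous semigroup which is not logically homogeneous
-/

namespace Pool.Agent.Results.MP_c05c30_lc.NotHomogeneous

open FirstOrder FirstOrder.Language Pool.Agent.R951.LH

/-- The field with two elements is logically homogeneous. -/
theorem homogeneous_two : Homogeneous rgL (ZMod 2) (rgStr (ZMod 2)) := by
  letI := rgStr (ZMod 2)
  intro n a b h
  refine ⟨FirstOrder.Language.Equiv.refl rgL (ZMod 2), fun i => ?_⟩
  change a i = b i
  have h1 := h (Term.equal (Term.var i) (Term.func (RgF.zero : rgL.Functions 0) ![]))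
  rw [Formula.realize_equal, Formula.realize_equal] at h1
  have h2 : a i = 0 ↔ b i = 0 := h1
  revert h2
  generalize a i = x
  generalize b i = y
  revert x y
  decide

/-- **Disproof.** There are a logically homogeneous semigroup `S` and a logically homogeneous field
`P` such that the semigroup algebra `PS` is not logically homogeneous. In fact one semigroup `S`
works for all countable fields `P`, in particular for the logically homogeneous field with two
elements. -/
theorem result : ∃ (S : Type) (_ : Semigroup S),
    Homogeneous sgL S (sgStr S) ∧
    Homogeneous rgL (ZMod 2) (rgStr (ZMod 2)) ∧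
    ¬ Homogeneous (algL (ZMod 2)) (MonoidAlgebra (ZMod 2) S)
      (algStr (ZMod 2) (MonoidAlgebra (ZMod 2) S)) ∧
    ∀ (P : Type) [Field P] [Countable P],
      ¬ Homogeneous (algL P) (MonoidAlgebra P S) (algStr P (MonoidAlgebra P S)) := by
  refine ⟨Sg ℕ JJ, inferInstance, Sg.homogeneous, homogeneous_two, ?_, ?_⟩
  · exact not_homogeneous
  · intro P _ _
    exact not_homogeneous

end Pool.Agent.Results.MP_c05c30_lc.NotHomogeneous
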